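import Pool.Agent.Helper20.RG.St2

set_option autoImplicit false

open MeasureTheory Set Filter Topology
open scoped ENNReal RealInnerProductSpace

namespace Pool.Agent.Helper88.RG

open Pool.Agent.Helper20.RG
open Pool.Agent.Helper68.LM (Pl BB Bd Av HL ft fm DQ)

theorem Ms_pos (u : ℕ) (hu : 1 ≤ u) : 0 < Ms u := by
  have h1 : (1 : ℝ) ≤ u := by exact_mod_cast hu
  unfold Ms
  positivity

/-- the number of indices of the class is at most the sum of the squares -/
theorem Pe_card (Zf : ℕ → ℤ → ℕ → Pl → ℝ) (u : ℕ) (η : ℝ) (b : ℕ) (k : ℤ) (x : Pl) (hu : 1 ≤ u)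
    (hη : 0 < η) (hb : b ≤ 3 * u) :
    ((Pe Zf u η b k x).ncard : ℝ≥0∞) ≤ ∑ l ∈ Finset.range (16 * u), ∑ j ∈ Finset.range (2 ^ u),
      ENNReal.ofReal ((2 * Ms u / η) ^ 2) *
        ‖Zf (om u b l) k j x - Zf (om u b (l + 1)) k j x‖ₑ ^ 2 := by
  classical
  have hM := Ms_pos u hu
  have hsub : Pe Zf u η b k x ⊆ ((Finset.range (2 ^ u)).filter
      (fun j => ∃ l < 16 * u, η / (2 * Ms u) ≤
        |Zf (om u b l) k j x - Zf (om u b (l + 1)) k j x|) : Finset ℕ) := by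
    intro j hj
    simp only [Finset.coe_filter, Finset.mem_range, Set.mem_setOf_eq]
    exact ⟨hj.1, hj.2.2 hb⟩
  have h1 : (Pe Zf u η b k x).ncard ≤ ((Finset.range (2 ^ u)).filter
      (fun j => ∃ l < 16 * u, η / (2 * Ms u) ≤
        |Zf (om u b l) k j x - Zf (om u b (l + 1)) k j x|)).card := by
    rw [← Set.ncard_coe_finset]
    exact Set.ncard_le_ncard hsub (Finset.finite_toSet _)
  have h2 : ((Pe Zf u η b k x).ncard : ℝ≥0∞) ≤ ∑ j ∈ (Finset.range (2 ^ u)).filter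
      (fun j => ∃ l < 16 * u, η / (2 * Ms u) ≤
        |Zf (om u b l) k j x - Zf (om u b (l + 1)) k j x|), (1 : ℝ≥0∞) := by
    simp only [Finset.sum_const, nsmul_eq_mul, mul_one]
    exact_mod_cast h1
  refine h2.trans ?_
  rw [Finset.sum_comm]
  refine (Finset.sum_le_sum (g := fun j => ∑ l ∈ Finset.range (16 * u),
      ENNReal.ofReal ((2 * Ms u / η) ^ 2) *
        ‖Zf (om u b l) k j x - Zf (om u b (l + 1)) k j x‖ₑ ^ 2) ?_).trans
    (Finset.sum_le_sum_of_subset (Finset.filter_subset _ _))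
  intro j hj
  obtain ⟨l, hl, hle⟩ := (Finset.mem_filter.1 hj).2
  refine le_trans ?_ (Finset.single_le_sum (f := fun l => ENNReal.ofReal ((2 * Ms u / η) ^ 2) *
        ‖Zf (om u b l) k j x - Zf (om u b (l + 1)) k j x‖ₑ ^ 2) (fun _ _ => zero_le)
        (Finset.mem_range.2 hl))
  have h3 : ‖Zf (om u b l) k j x - Zf (om u b (l + 1)) k j x‖ₑ =
      ENNReal.ofReal |Zf (om u b l) k j x - Zf (om u b (l + 1)) k j x| := by
    rw [← Real.enorm_abs, Real.enorm_of_nonneg (abs_nonneg _)]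
  rw [h3, ← ENNReal.ofReal_pow (abs_nonneg _), ← ENNReal.ofReal_mul (by positivity),
    ← ENNReal.ofReal_one]
  apply ENNReal.ofReal_le_ofReal
  have h4 : 1 ≤ (2 * Ms u / η) * |Zf (om u b l) k j x - Zf (om u b (l + 1)) k j x| := by
    calc (1 : ℝ) = (2 * Ms u / η) * (η / (2 * Ms u)) := by field_simp
      _ ≤ _ := mul_le_mul_of_nonneg_left hle (by positivity)
  rw [← mul_pow]
  exact one_le_pow₀ h4

theorem hMK : StMK := by
  intro u Cf K A σ s g Zf η m₁ b T hF hCf hA hu hη hm hb hT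
  have hM := Ms_pos u hu
  have hcont : ∀ (l : ℕ) (k : ℤ) (j : ℕ), j ∈ Finset.range (2 ^ u) →
      Measurable (fun x => ‖Zf (om u b l) k j x - Zf (om u b (l + 1)) k j x‖ₑ ^ 2) := by
    intro l k j hj
    have h1 := (hF.cont (om u b l) k j (Finset.mem_range.1 hj)).measurable
    have h2 := (hF.cont (om u b (l + 1)) k j (Finset.mem_range.1 hj)).measurable
    exact ((h1.sub h2).enorm).pow_const 2
  have key : ∀ k : ℤ, volume {x | m₁ ≤ ((Pe Zf u η b k x).ncard : ℝ)} ≤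
      ENNReal.ofReal (1 / m₁) * ∑ l ∈ Finset.range (16 * u),
        (ENNReal.ofReal ((2 * Ms u / η) ^ 2) * ∑ j ∈ Finset.range (2 ^ u),
          ∫⁻ x, ‖Zf (om u b l) k j x - Zf (om u b (l + 1)) k j x‖ₑ ^ 2) := by
    intro k
    have h1 : {x | m₁ ≤ ((Pe Zf u η b k x).ncard : ℝ)} ⊆ {x | ENNReal.ofReal m₁ ≤
        ∑ l ∈ Finset.range (16 * u), ∑ j ∈ Finset.range (2 ^ u),
          ENNReal.ofReal ((2 * Ms u / η) ^ 2) *
            ‖Zf (om u b l) k j x - Zf (om u b (l + 1)) k j x‖ₑ ^ 2} := by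
      intro x hx
      refine le_trans ?_ (Pe_card Zf u η b k x hu hη hb)
      refine (ENNReal.ofReal_le_ofReal hx).trans ?_
      rw [ENNReal.ofReal_natCast]
    have hmeas : Measurable (fun x => ∑ l ∈ Finset.range (16 * u), ∑ j ∈ Finset.range (2 ^ u),
          ENNReal.ofReal ((2 * Ms u / η) ^ 2) *
            ‖Zf (om u b l) k j x - Zf (om u b (l + 1)) k j x‖ₑ ^ 2) := by
      refine Finset.measurable_sum _ fun l _ => Finset.measurable_sum _ fun j hj => ?_
      exact (hcont l k j hj).const_mul _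
    refine (measure_mono h1).trans ?_
    refine (meas_ge_le_lintegral_div hmeas.aemeasurable
      (ENNReal.ofReal_pos.2 hm).ne' ENNReal.ofReal_ne_top).trans ?_
    rw [div_eq_mul_inv, mul_comm, ← ENNReal.ofReal_inv_of_pos hm, one_div]
    refine mul_le_mul_right ?_ _
    rw [lintegral_finset_sum _ (fun l _ => Finset.measurable_sum _ fun j hj =>
      (hcont l k j hj).const_mul _)]
    refine Finset.sum_le_sum fun l _ => ?_
    rw [lintegral_finset_sum _ (fun j hj => (hcont l k j hj).const_mul _), Finset.mul_sum]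
    refine Finset.sum_le_sum fun j hj => ?_
    rw [lintegral_const_mul _ (hcont l k j hj)]
  have hdif : ∀ l ∈ Finset.range (16 * u), ∑' k : ℤ, ∑ j ∈ Finset.range (2 ^ u),
      ∫⁻ x, ‖Zf (om u b l) k j x - Zf (om u b (l + 1)) k j x‖ₑ ^ 2 ≤
        ENNReal.ofReal (Cf * mu u A σ ((2 : ℝ) ^ b * (1024 * (u : ℝ) ^ 2)) T) *
          ∫⁻ x, ‖g x‖ₑ ^ 2 := by
    intro l hl
    have hl' : l + 1 ≤ 16 * u := Finset.mem_range.1 hl
    have hp : 1 ≤ 2 ^ b := Nat.one_le_two_pow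
    have h := hF.dif (2 ^ b * (1024 * u ^ 2)) (om u b l) (om u b (l + 1)) T hu ?_ ?_ ?_ ?_ hT
    · refine h.trans (le_of_eq ?_)
      congr 2
      unfold mu
      push_cast
      ring
    · nlinarith [Nat.mul_le_mul hp (Nat.le_refl (1024 * u ^ 2))]
    · unfold om
      exact Nat.mul_le_mul_left _ (by omega)
    · unfold om
      exact Nat.mul_le_mul_left _ (by nlinarith)
    · unfold om
      have h1 : 64 * u * (l + 1) ≤ 64 * u * (16 * u) := Nat.mul_le_mul_left _ hl'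
      calc 2 ^ b * (1024 * u ^ 2 + 64 * u * (l + 1)) ≤ 2 ^ b * (1024 * u ^ 2 + 64 * u * (16 * u)) :=
            Nat.mul_le_mul_left _ (by omega)
        _ = 2 * (2 ^ b * (1024 * u ^ 2)) := by ring
  calc ∑' k : ℤ, volume {x | m₁ ≤ ((Pe Zf u η b k x).ncard : ℝ)}
      ≤ ∑' k : ℤ, ENNReal.ofReal (1 / m₁) * ∑ l ∈ Finset.range (16 * u),
        (ENNReal.ofReal ((2 * Ms u / η) ^ 2) * ∑ j ∈ Finset.range (2 ^ u),
          ∫⁻ x, ‖Zf (om u b l) k j x - Zf (om u b (l + 1)) k j x‖ₑ ^ 2) :=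
        ENNReal.tsum_le_tsum key
    _ = ENNReal.ofReal (1 / m₁) * ∑ l ∈ Finset.range (16 * u),
        (ENNReal.ofReal ((2 * Ms u / η) ^ 2) * ∑' k : ℤ, ∑ j ∈ Finset.range (2 ^ u),
          ∫⁻ x, ‖Zf (om u b l) k j x - Zf (om u b (l + 1)) k j x‖ₑ ^ 2) := by
        rw [ENNReal.tsum_mul_left, Summable.tsum_finsetSum (fun i _ => ENNReal.summable)]
        congr 1
        refine Finset.sum_congr rfl fun l _ => ?_
        rw [ENNReal.tsum_mul_left]
    _ ≤ ENNReal.ofReal (1 / m₁) * ∑ l ∈ Finset.range (16 * u),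
        (ENNReal.ofReal ((2 * Ms u / η) ^ 2) *
          (ENNReal.ofReal (Cf * mu u A σ ((2 : ℝ) ^ b * (1024 * (u : ℝ) ^ 2)) T) *
          ∫⁻ x, ‖g x‖ₑ ^ 2)) := by
        refine mul_le_mul_right (Finset.sum_le_sum fun l hl => ?_) _
        exact mul_le_mul_right (hdif l hl) _
    _ = ENNReal.ofReal (1 / m₁ * (2 * Ms u / η) ^ 2 *
          (16 * u * (Cf * mu u A σ ((2 : ℝ) ^ b * (1024 * (u : ℝ) ^ 2)) T))) *
            ∫⁻ x, ‖g x‖ₑ ^ 2 := by
        have hmu : 0 ≤ mu u A σ ((2 : ℝ) ^ b * (1024 * (u : ℝ) ^ 2)) T := by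
          unfold mu
          positivity
        have hcm : 0 ≤ Cf * mu u A σ ((2 : ℝ) ^ b * (1024 * (u : ℝ) ^ 2)) T :=
          mul_nonneg (by linarith) hmu
        rw [Finset.sum_const, Finset.card_range, nsmul_eq_mul, ← mul_assoc, ← mul_assoc,
          ← mul_assoc, ← ENNReal.ofReal_natCast, ← ENNReal.ofReal_mul (by positivity),
          ← ENNReal.ofReal_mul (by positivity), ← ENNReal.ofReal_mul (by positivity)]
        congr 2
        push_cast
        ring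

end Pool.Agent.Helper88.RG
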