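import Pool.Agent.Helper20.RG.St3

set_option autoImplicit false

open MeasureTheory Set Filter Topology
open scoped ENNReal RealInnerProductSpace

namespace Pool.Agent.Helper88.RG

open Pool.Agent.Helper20.RG
open Pool.Agent.Helper68.LM (Pl BB Bd Av HL ft fm DQ)

theorem tau_mono (φ τ : ℝ → ℝ) (h : Graph φ τ) : Monotone τ := by
  intro t t' htt
  rcases eq_or_lt_of_le htt with h1 | h1
  · rw [h1]
  · have h2 := h.2 t t' htt
    have h3 : τ t * (t' - t) ≤ τ t' * (t' - t) := h2.1.trans h2.2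
    exact le_of_mul_le_mul_right h3 (by linarith)

theorem trn_bounds (u j : ℕ) (hj : j < 2 ^ u) :
    0 ≤ max (0 : ℝ) (((j : ℝ) - 1) / 2 ^ u) ∧
    max (0 : ℝ) (((j : ℝ) - 1) / 2 ^ u) ≤ (j : ℝ) / 2 ^ u ∧
    ((j : ℝ) + 1) / 2 ^ u ≤ min 1 (((j : ℝ) + 2) / 2 ^ u) ∧
    min (1 : ℝ) (((j : ℝ) + 2) / 2 ^ u) ≤ 1 := by
  have hp : (0 : ℝ) < 2 ^ u := by positivity
  have hj' : (j : ℝ) + 1 ≤ 2 ^ u := by exact_mod_cast hj
  refine ⟨le_max_left _ _, max_le (by positivity) ?_, le_min ?_ ?_, min_le_left _ _⟩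
  · exact div_le_div_of_nonneg_right (by linarith) hp.le
  · rw [div_le_one hp]; exact hj'
  · exact div_le_div_of_nonneg_right (by linarith) hp.le

/-- the turning is not too small -/
theorem trn_gt (φ τ : ℝ → ℝ) (A σ : ℝ) (hG : Graph φ τ) (hP : Gap A σ τ) (u j : ℕ) (hj : j < 2 ^ u)
    (i : ℕ) (hi : 1 ≤ i) (hA : A * (i : ℝ) ^ (-(1 / σ)) < 1 / 2 ^ u) :
    (2 : ℝ) ^ (-(i : ℤ)) < trn τ u j := by
  by_contra hcon
  rw [not_lt] at hcon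
  have hm := tau_mono φ τ hG
  obtain ⟨b1, b2, b3, b4⟩ := trn_bounds u j hj
  have hp : (0 : ℝ) < 2 ^ u := by positivity
  have h1 := hP (τ (max (0 : ℝ) (((j : ℝ) - 1) / 2 ^ u))) i hi
  have hsub : Icc ((j : ℝ) / 2 ^ u) (((j : ℝ) + 1) / 2 ^ u) ⊆ {t : ℝ | t ∈ Icc (0 : ℝ) 1 ∧
      |τ t - τ (max (0 : ℝ) (((j : ℝ) - 1) / 2 ^ u))| ≤ (2 : ℝ) ^ (-(i : ℤ))} := by
    intro t ht
    refine ⟨⟨(b1.trans b2).trans ht.1, (ht.2.trans b3).trans b4⟩, ?_⟩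
    rw [abs_of_nonneg (sub_nonneg.2 (hm (b2.trans ht.1)))]
    refine le_trans ?_ hcon
    unfold trn
    exact sub_le_sub_right (hm (ht.2.trans b3)) _
  have h2 := (measure_mono hsub).trans h1
  rw [Real.volume_Icc] at h2
  have h3 : ((j : ℝ) + 1) / 2 ^ u - (j : ℝ) / 2 ^ u = 1 / 2 ^ u := by ring
  rw [h3] at h2
  have h4 : ENNReal.ofReal (A * (i : ℝ) ^ (-(1 / σ))) < ENNReal.ofReal (1 / 2 ^ u) :=
    (ENNReal.ofReal_lt_ofReal_iff (by positivity)).2 hA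
  exact absurd h2 (not_le.2 h4)

theorem pow_small (A σ : ℝ) (hA : 0 < A) (hσ : 0 < σ) (u : ℕ) (i : ℕ) (hi : 1 ≤ i)
    (h : (A * (2 : ℝ) ^ u) ^ σ < i) : A * (i : ℝ) ^ (-(1 / σ)) < 1 / 2 ^ u := by
  have hp : (0 : ℝ) < 2 ^ u := by positivity
  have hi' : (0 : ℝ) < i := by exact_mod_cast hi
  have h1 : A * (2 : ℝ) ^ u < (i : ℝ) ^ (1 / σ) := by
    have h2 : ((A * (2 : ℝ) ^ u) ^ σ) ^ (1 / σ) < (i : ℝ) ^ (1 / σ) :=
      Real.rpow_lt_rpow (by positivity) h (by positivity)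
    rwa [← Real.rpow_mul (by positivity), mul_one_div_cancel hσ.ne', Real.rpow_one] at h2
  have hpos : (0 : ℝ) < (i : ℝ) ^ (1 / σ) := Real.rpow_pos_of_pos hi' _
  rw [Real.rpow_neg hi'.le, lt_div_iff₀ hp, mul_assoc, mul_comm ((i : ℝ) ^ (1 / σ))⁻¹, ← mul_assoc,
    ← div_eq_mul_inv, div_lt_one hpos]
  exact h1

theorem trn_pos (φ τ : ℝ → ℝ) (A σ : ℝ) (hG : Graph φ τ) (hP : Gap A σ τ) (hA : 0 < A) (hσ : 0 < σ)
    (u j : ℕ) (hj : j < 2 ^ u) :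
    (2 : ℝ) ^ (-((⌊(A * (2 : ℝ) ^ u) ^ σ⌋₊ + 1 : ℕ) : ℤ)) < trn τ u j := by
  apply trn_gt φ τ A σ hG hP u j hj _ (by omega)
  apply pow_small A σ hA hσ u _ (by omega)
  push_cast
  exact Nat.lt_floor_add_one _

theorem trn_le_two (φ τ : ℝ → ℝ) (hG : Graph φ τ) (u j : ℕ) : trn τ u j ≤ 2 := by
  unfold trn
  have h1 := abs_le.1 (hG.1 (min 1 (((j : ℝ) + 2) / 2 ^ u)))
  have h2 := abs_le.1 (hG.1 (max 0 (((j : ℝ) - 1) / 2 ^ u)))
  linarith [h1.2, h2.1]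

theorem hMM : StMM := by
  intro φ τ A σ hG hP hA hσ u j hu hj
  have hm := tau_mono φ τ hG
  have hlow := trn_pos φ τ A σ hG hP hA hσ u j hj
  have hpos : 0 < trn τ u j := lt_trans (by positivity) hlow
  have h2 := trn_le_two φ τ hG u j
  have hp : (0 : ℝ) < 2 ^ u := by positivity
  have h2u : (2 : ℝ) ≤ 2 ^ u := by
    calc (2 : ℝ) = 2 ^ 1 := by norm_num
      _ ≤ 2 ^ u := pow_le_pow_right₀ (by norm_num) hu
  have hX : (1 : ℝ) ≤ 2 ^ u / trn τ u j := by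
    rw [le_div_iff₀ hpos]; linarith
  have hX0 : (0 : ℝ) < 2 ^ u / trn τ u j := by linarith
  have hlog : 0 ≤ Real.logb 2 ((2 : ℝ) ^ u / trn τ u j) := Real.logb_nonneg (by norm_num) hX
  have hfl : (2 : ℝ) ^ (mm τ u j) ≤ 2 ^ u / trn τ u j := by
    have h3 : ((mm τ u j : ℕ) : ℝ) ≤ Real.logb 2 ((2 : ℝ) ^ u / trn τ u j) := Nat.floor_le hlog
    rw [Real.le_logb_iff_rpow_le (by norm_num) hX0] at h3
    rwa [Real.rpow_natCast] at h3
  have hfu : (2 : ℝ) ^ u / trn τ u j < 2 ^ (mm τ u j + 1) := by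
    have h3 : Real.logb 2 ((2 : ℝ) ^ u / trn τ u j) < ((mm τ u j + 1 : ℕ) : ℝ) := by
      push_cast
      exact Nat.lt_floor_add_one _
    rw [Real.logb_lt_iff_lt_rpow (by norm_num) hX0] at h3
    rwa [Real.rpow_natCast] at h3
  have c1 : (2 : ℝ) ^ (mm τ u j) * trn τ u j ≤ (2 : ℝ) ^ u := by
    rwa [le_div_iff₀ hpos] at hfl
  have c2 : (2 : ℝ) ^ u < (2 : ℝ) ^ (mm τ u j + 1) * trn τ u j := by
    rwa [div_lt_iff₀ hpos] at hfu
  refine ⟨hpos, h2, c1, c2, ?_, ?_, ?_⟩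
  · have h3 : (2 : ℝ) ^ u < 2 ^ (mm τ u j + 2) := by
      calc (2 : ℝ) ^ u < (2 : ℝ) ^ (mm τ u j + 1) * trn τ u j := c2
        _ ≤ (2 : ℝ) ^ (mm τ u j + 1) * 2 := by gcongr
        _ = _ := by ring
    have h4 := (pow_lt_pow_iff_right₀ (by norm_num : (1 : ℝ) < 2)).1 h3
    omega
  · have h3 : (2 : ℝ) ^ (mm τ u j) < 2 ^ (u + (⌊(A * (2 : ℝ) ^ u) ^ σ⌋₊ + 1)) := by
      refine hfl.trans_lt ?_
      rw [div_lt_iff₀ hpos, pow_add]
      have h5 : (1 : ℝ) < 2 ^ (⌊(A * (2 : ℝ) ^ u) ^ σ⌋₊ + 1) * trn τ u j := by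
        have h6 : (2 : ℝ) ^ (⌊(A * (2 : ℝ) ^ u) ^ σ⌋₊ + 1) *
            (2 : ℝ) ^ (-((⌊(A * (2 : ℝ) ^ u) ^ σ⌋₊ + 1 : ℕ) : ℤ)) = 1 := by
          rw [zpow_neg, zpow_natCast]
          exact mul_inv_cancel₀ (by positivity)
        calc (1 : ℝ) = (2 : ℝ) ^ (⌊(A * (2 : ℝ) ^ u) ^ σ⌋₊ + 1) *
            (2 : ℝ) ^ (-((⌊(A * (2 : ℝ) ^ u) ^ σ⌋₊ + 1 : ℕ) : ℤ)) := h6.symm
          _ < _ := mul_lt_mul_of_pos_left hlow (by positivity)
      calc (2 : ℝ) ^ u = 2 ^ u * 1 := by ring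
        _ < 2 ^ u * (2 ^ (⌊(A * (2 : ℝ) ^ u) ^ σ⌋₊ + 1) * trn τ u j) :=
            mul_lt_mul_of_pos_left h5 hp
        _ = _ := by ring
    have h4 := (pow_lt_pow_iff_right₀ (by norm_num : (1 : ℝ) < 2)).1 h3
    have h5 := Nat.floor_le_ceil ((A * (2 : ℝ) ^ u) ^ σ)
    unfold KA
    omega
  · intro hu2
    obtain ⟨v, rfl⟩ : ∃ v, u = v + 1 := ⟨u - 1, by omega⟩
    have hj2 : j / 2 < 2 ^ v := by
      rw [pow_succ] at hj
      omega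
    have hlow' := trn_pos φ τ A σ hG hP hA hσ v (j / 2) hj2
    have hpos' : 0 < trn τ v (j / 2) := lt_trans (by positivity) hlow'
    have e1 : (2 : ℝ) * ((j / 2 : ℕ) : ℝ) ≤ j := by
      have : 2 * (j / 2) ≤ j := Nat.mul_div_le j 2
      exact_mod_cast this
    have e2 : (j : ℝ) ≤ 2 * ((j / 2 : ℕ) : ℝ) + 1 := by
      have : j ≤ 2 * (j / 2) + 1 := by omega
      exact_mod_cast this
    have hpv : (0 : ℝ) < 2 ^ v := by positivity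
    have hle : trn τ (v + 1) j ≤ trn τ v (j / 2) := by
      unfold trn
      apply sub_le_sub
      · apply hm
        apply min_le_min le_rfl
        rw [div_le_div_iff₀ (by positivity) hpv, pow_succ]
        nlinarith
      · apply hm
        apply max_le_max le_rfl
        rw [div_le_div_iff₀ hpv (by positivity), pow_succ]
        nlinarith
    show mm τ v (j / 2) ≤ mm τ (v + 1) j
    unfold mm
    apply Nat.floor_le_floor
    apply Real.logb_le_logb_of_le (by norm_num) (by positivity)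
    rw [div_le_div_iff₀ hpos' hpos, pow_succ]
    nlinarith

end Pool.Agent.Helper88.RG
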