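import Pool.Agent.Helper20.RG.St3

set_option autoImplicit false

open MeasureTheory Set Filter Topology
open scoped ENNReal RealInnerProductSpace

namespace Pool.Agent.Helper88.RG

open Pool.Agent.Helper20.RG
open Pool.Agent.Helper68.LM (Pl BB Bd Av HL ft fm DQ)

/-- the linear map of the frame `(u, v)` -/
noncomputable def frL (u v : Pl) : Pl →ₗ[ℝ] Pl where
  toFun w := w 0 • u + w 1 • v
  map_add' x y := by
    simp only [PiLp.add_apply, add_smul]; abel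
  map_smul' c x := by
    simp only [PiLp.smul_apply, smul_eq_mul, RingHom.id_apply, smul_add, smul_smul]

theorem frL_norm (u v : Pl) (hu : ‖u‖ = 1) (hv : ‖v‖ = 1) (huv : ⟪u, v⟫ = 0) (w : Pl) :
    ‖frL u v w‖ = ‖w‖ := by
  have h1 : ‖frL u v w‖ ^ 2 = ‖w‖ ^ 2 := by
    have h2 : frL u v w = w 0 • u + w 1 • v := rfl
    rw [h2, norm_add_sq_real, inner_smul_left, inner_smul_right, huv, norm_smul, norm_smul, hu, hv,
      EuclideanSpace.norm_sq_eq]
    simp only [Fin.sum_univ_two, Real.norm_eq_abs, sq_abs, mul_one, mul_zero, add_zero]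
  have h3 := (sq_eq_sq₀ (norm_nonneg _) (norm_nonneg _)).1 h1
  exact h3

/-- the linear isometry of the frame -/
noncomputable def frI (u v : Pl) (hu : ‖u‖ = 1) (hv : ‖v‖ = 1) (huv : ⟪u, v⟫ = 0) : Pl ≃ₗᵢ[ℝ] Pl :=
  LinearIsometry.toLinearIsometryEquiv ⟨frL u v, frL_norm u v hu hv huv⟩ rfl

theorem frI_apply (u v : Pl) (hu : ‖u‖ = 1) (hv : ‖v‖ = 1) (huv : ⟪u, v⟫ = 0) (w : Pl) :
    frI u v hu hv huv w = w 0 • u + w 1 • v := by
  unfold frI
  simp only [LinearIsometry.coe_toLinearIsometryEquiv]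
  rfl

/-- change of variables for an arbitrary function -/
theorem lint_smul_iso (L : Pl ≃ₗᵢ[ℝ] Pl) (ℓ : ℝ) (hℓ : 0 < ℓ) (H : Pl → ℝ≥0∞) :
    ∫⁻ x, H x = ENNReal.ofReal (ℓ ^ 2) * ∫⁻ x, H (ℓ • L x) := by
  have h1 : ∫⁻ x, H (ℓ • L x) = ∫⁻ x, H (ℓ • x) := by
    have h := L.measurePreserving
    have h2 := lintegral_map_equiv (μ := (volume : Measure Pl)) (fun x => H (ℓ • x))
      L.toMeasurableEquiv
    have h3 : Measure.map (⇑L.toMeasurableEquiv) (volume : Measure Pl) = volume := h.map_eq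
    rw [h3] at h2
    exact h2.symm
  have h2 : ∫⁻ x, H (ℓ • x) = ENNReal.ofReal ((ℓ ^ 2)⁻¹) * ∫⁻ x, H x := by
    have h3 := lintegral_map_equiv (μ := (volume : Measure Pl)) H
      (Homeomorph.smulOfNeZero ℓ hℓ.ne').toMeasurableEquiv
    have h4 : Measure.map (⇑(Homeomorph.smulOfNeZero ℓ hℓ.ne' : Pl ≃ₜ Pl).toMeasurableEquiv)
        (volume : Measure Pl) = ENNReal.ofReal ((ℓ ^ 2)⁻¹) • volume := by
      have h5 := Measure.map_addHaar_smul (volume : Measure Pl) hℓ.ne'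
      have h6 : Module.finrank ℝ Pl = 2 := by
        show Module.finrank ℝ (EuclideanSpace ℝ (Fin 2)) = 2
        simp
      rw [h6, abs_of_pos (by positivity)] at h5
      exact h5
    rw [h4, lintegral_smul_measure] at h3
    exact h3.symm
  rw [h1, h2, ← mul_assoc, ← ENNReal.ofReal_mul (by positivity), mul_inv_cancel₀ (by positivity),
    ENNReal.ofReal_one, one_mul]

/-- change of variables on an interval -/
theorem lint_Icc (ℓ : ℝ) (hℓ : 0 < ℓ) (G : ℝ → ℝ≥0∞) :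
    ∫⁻ t in Icc (0 : ℝ) ℓ, G t = ENNReal.ofReal ℓ * ∫⁻ t in Icc (0 : ℝ) 1, G (ℓ * t) := by
  have hm : MeasurableSet (Icc (0 : ℝ) ℓ) := measurableSet_Icc
  have hm1 : MeasurableSet (Icc (0 : ℝ) 1) := measurableSet_Icc
  have h3 := lintegral_map_equiv (μ := (volume : Measure ℝ)) ((Icc (0 : ℝ) ℓ).indicator G)
      (Homeomorph.mulLeft₀ ℓ hℓ.ne').toMeasurableEquiv
  have h4 : Measure.map (⇑(Homeomorph.mulLeft₀ ℓ hℓ.ne').toMeasurableEquiv)
        (volume : Measure ℝ) = ENNReal.ofReal ℓ⁻¹ • volume := by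
    have h5 := Real.map_volume_mul_left hℓ.ne'
    rw [abs_of_pos (by positivity)] at h5
    exact h5
  rw [h4, lintegral_smul_measure, lintegral_indicator hm] at h3
  have h6 : ∀ t : ℝ, (Icc (0 : ℝ) ℓ).indicator G ((Homeomorph.mulLeft₀ ℓ hℓ.ne').toMeasurableEquiv t) =
      (Icc (0 : ℝ) 1).indicator (fun t => G (ℓ * t)) t := by
    intro t
    have h7 : (Homeomorph.mulLeft₀ ℓ hℓ.ne').toMeasurableEquiv t = ℓ * t := rfl
    rw [h7]
    by_cases ht : t ∈ Icc (0 : ℝ) 1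
    · rw [indicator_of_mem ht, indicator_of_mem]
      exact ⟨mul_nonneg hℓ.le ht.1, by nlinarith [ht.2]⟩
    · rw [indicator_of_notMem ht, indicator_of_notMem]
      intro hcon
      apply ht
      have h8 : 0 ≤ ℓ * t := hcon.1
      have h9 : ℓ * t ≤ ℓ := hcon.2
      constructor
      · by_contra hc
        rw [not_le] at hc
        nlinarith
      · by_contra hc
        rw [not_le] at hc
        nlinarith
  simp_rw [h6] at h3
  rw [lintegral_indicator hm1] at h3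
  rw [← h3, smul_eq_mul, ← mul_assoc, ← ENNReal.ofReal_mul hℓ.le, mul_inv_cancel₀ hℓ.ne',
    ENNReal.ofReal_one, one_mul]

theorem phi_cont (φ τ : ℝ → ℝ) (h : Graph φ τ) : Continuous φ := by
  have h1 : ∀ t t' : ℝ, t ≤ t' → |φ t' - φ t| ≤ |t' - t| := by
    intro t t' htt
    obtain ⟨a, b⟩ := h.2 t t' htt
    have h2 := abs_le.1 (h.1 t)
    have h3 := abs_le.1 (h.1 t')
    have h4 : 0 ≤ t' - t := by linarith
    rw [abs_of_nonneg h4, abs_le]
    constructor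
    · nlinarith
    · nlinarith
  have h2 : LipschitzWith 1 φ := by
    apply LipschitzWith.of_dist_le_mul
    intro x y
    rw [Real.dist_eq, Real.dist_eq, NNReal.coe_one, one_mul]
    rcases le_total x y with hxy | hxy
    · rw [abs_sub_comm (φ x), abs_sub_comm x]; exact h1 x y hxy
    · exact h1 y x hxy
  exact h2.continuous

theorem pt_cont (φ : ℝ → ℝ) (h : Continuous φ) : Continuous (fun t => pt t (φ t)) := by
  unfold pt
  refine (PiLp.continuous_toLp 2 _).comp ?_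
  refine continuous_pi ?_
  intro i
  fin_cases i
  · exact continuous_id
  · exact h

theorem hRES : StRES := by
  intro Ω P u v ℓ φ τ p hPi hp harc
  have hℓ := hPi.pos
  have hφ := phi_cont φ τ hPi.graph
  set L := frI u v hPi.nu hPi.nv hPi.uv with hL
  obtain ⟨C, hC, hB⟩ := harc (L.symm (ℓ⁻¹ • P))
  refine ⟨ℓ ^ p * C, by positivity, ?_⟩
  intro f hf
  have hp0 : 0 ≤ p := by linarith
  set f₁ : Pl → ℝ≥0∞ := fun z => f (ℓ • L z) with hf₁
  have hLc : Continuous (fun z : Pl => ℓ • L z) := L.continuous.const_smul ℓ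
  have hf₁m : Measurable f₁ := hf.comp hLc.measurable
  have hcurve : Continuous (fun t : ℝ => P + t • u + φ t • v) := by fun_prop
  have hcurve1 : Continuous (fun t : ℝ => L.symm (ℓ⁻¹ • P) + pt t (φ (ℓ * t) / ℓ)) :=
    continuous_const.add (pt_cont (fun t => φ (ℓ * t) / ℓ) (by fun_prop))
  have hkey : ∀ (x₁ : Pl) (k : ℤ), ∫⁻ y, f (ℓ • L x₁ - (2 : ℝ) ^ k • y) ∂(pme P u v ℓ φ) =
      ENNReal.ofReal ℓ * ∫⁻ y, f₁ (x₁ - (2 : ℝ) ^ k • y)
        ∂(arc (L.symm (ℓ⁻¹ • P)) (fun t => φ (ℓ * t) / ℓ)) := by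
    intro x₁ k
    unfold pme arc
    have hm1 : Measurable (fun y : Pl => f (ℓ • L x₁ - (2 : ℝ) ^ k • y)) :=
      hf.comp (by fun_prop : Continuous fun y : Pl => ℓ • L x₁ - (2 : ℝ) ^ k • y).measurable
    have hm2 : Measurable (fun y : Pl => f₁ (x₁ - (2 : ℝ) ^ k • y)) :=
      hf₁m.comp (by fun_prop : Continuous fun y : Pl => x₁ - (2 : ℝ) ^ k • y).measurable
    rw [lintegral_map hm1 hcurve.measurable, lintegral_map hm2 hcurve1.measurable, lint_Icc ℓ hℓ]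
    congr 1
    refine lintegral_congr fun t => ?_
    have h1 : ℓ • L x₁ - (2 : ℝ) ^ k • (P + (ℓ * t) • u + φ (ℓ * t) • v) =
        ℓ • L (x₁ - (2 : ℝ) ^ k • (L.symm (ℓ⁻¹ • P) + pt t (φ (ℓ * t) / ℓ))) := by
      rw [map_sub, map_smul, map_add, L.apply_symm_apply, smul_sub, smul_comm ℓ ((2 : ℝ) ^ k),
        smul_add ℓ, smul_smul ℓ ℓ⁻¹, mul_inv_cancel₀ hℓ.ne', one_smul]
      congr 2
      rw [add_assoc]
      congr 1
      rw [hL, frI_apply]
      have h2 : (pt t (φ (ℓ * t) / ℓ)) 0 = t := by simp [pt]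
      have h3 : (pt t (φ (ℓ * t) / ℓ)) 1 = φ (ℓ * t) / ℓ := by simp [pt]
      rw [h2, h3, smul_add, smul_smul, smul_smul, mul_div_cancel₀ _ hℓ.ne']
    rw [hf₁, h1]
  rw [lint_smul_iso L ℓ hℓ]
  have h2 : ∀ x₁ : Pl, (⨆ k : ℤ, ∫⁻ y, f (ℓ • L x₁ - (2 : ℝ) ^ k • y) ∂(pme P u v ℓ φ)) ^ p =
      ENNReal.ofReal ℓ ^ p * (⨆ k : ℤ, ∫⁻ y, f₁ (x₁ - (2 : ℝ) ^ k • y)
        ∂(arc (L.symm (ℓ⁻¹ • P)) (fun t => φ (ℓ * t) / ℓ))) ^ p := by
    intro x₁
    rw [← ENNReal.mul_rpow_of_nonneg _ _ hp0, ENNReal.mul_iSup]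
    congr 1
    refine iSup_congr fun k => hkey x₁ k
  simp_rw [h2]
  have htop : ENNReal.ofReal ℓ ^ p ≠ ⊤ := ENNReal.rpow_ne_top_of_nonneg hp0 ENNReal.ofReal_ne_top
  rw [lintegral_const_mul' _ _ htop]
  calc ENNReal.ofReal (ℓ ^ 2) * (ENNReal.ofReal ℓ ^ p * ∫⁻ x₁, (⨆ k : ℤ, ∫⁻ y, f₁ (x₁ - (2 : ℝ) ^ k • y)
        ∂(arc (L.symm (ℓ⁻¹ • P)) (fun t => φ (ℓ * t) / ℓ))) ^ p)
      ≤ ENNReal.ofReal (ℓ ^ 2) * (ENNReal.ofReal ℓ ^ p * (ENNReal.ofReal C * ∫⁻ x, f₁ x ^ p)) := by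
        gcongr
        exact hB f₁ hf₁m
    _ = ENNReal.ofReal (ℓ ^ p * C) * (ENNReal.ofReal (ℓ ^ 2) * ∫⁻ x, f (ℓ • L x) ^ p) := by
        rw [ENNReal.ofReal_mul (by positivity), ENNReal.ofReal_rpow_of_nonneg hℓ.le hp0, hf₁]
        ring
    _ = _ := by rw [← lint_smul_iso L ℓ hℓ (fun x => f x ^ p)]

end Pool.Agent.Helper88.RG
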